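import Mathlib

set_option autoImplicit false

namespace Pool.Agent.N897.GK

open Finset

/-- A1: weighted Mantel theorem -/
theorem mantel {ι : Type*} (C : Finset ι) (r : ι → ι → Prop) [DecidableRel r] (m : ι → ℝ)
    (hm : ∀ s ∈ C, 0 ≤ m s) (hsymm : ∀ s t, r s t → r t s)
    (htri : ∀ s ∈ C, ∀ t ∈ C, ∀ u ∈ C, r s t → r t u → r s u → False) :
    ∑ s ∈ C, ∑ t ∈ C, (if r s t then m s * m t else 0) ≤ (∑ s ∈ C, m s) ^ 2 / 2 := by
  obtain ⟨M, hM⟩ : ∃ M, M = ∑ s ∈ C, m s := ⟨_, rfl⟩
  obtain ⟨d, hd⟩ : ∃ d : ι → ℝ, ∀ s, d s = ∑ t ∈ C, (if r s t then m t else 0) :=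
    ⟨_, fun _ => rfl⟩
  obtain ⟨S, hS⟩ : ∃ S, S = ∑ s ∈ C, m s * d s := ⟨_, rfl⟩
  have hS' : ∑ s ∈ C, ∑ t ∈ C, (if r s t then m s * m t else 0) = S := by
    rw [hS]
    apply Finset.sum_congr rfl
    intro s _
    rw [hd, Finset.mul_sum]
    apply Finset.sum_congr rfl
    intro t _
    split_ifs <;> simp
  have hd0 : ∀ s, 0 ≤ d s := by
    intro s
    rw [hd]
    apply Finset.sum_nonneg
    intro t ht
    split_ifs
    · exact hm t ht
    · exact le_rfl
  have hM0 : 0 ≤ M := by rw [hM]; exact Finset.sum_nonneg hm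
  have hsum : ∀ s ∈ C, ∀ t ∈ C, r s t → d s + d t ≤ M := by
    intro s hs t ht hst
    rw [hd, hd, hM, ← Finset.sum_add_distrib]
    apply Finset.sum_le_sum
    intro u hu
    have h0 := hm u hu
    split_ifs with h1 h2
    · exact absurd h1 (fun h1 => htri s hs t ht u hu hst h2 h1)
    · simp
    · simp
    · simpa using h0
  have h1 : 2 * ∑ s ∈ C, m s * d s ^ 2 =
      ∑ s ∈ C, ∑ t ∈ C, (if r s t then m s * m t * (d s + d t) else 0) := by
    have e1 : ∑ s ∈ C, m s * d s ^ 2 =
        ∑ s ∈ C, ∑ t ∈ C, (if r s t then m s * m t * d s else 0) := by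
      apply Finset.sum_congr rfl
      intro s _
      rw [sq, ← mul_assoc]
      nth_rewrite 2 [hd]
      rw [Finset.mul_sum]
      apply Finset.sum_congr rfl
      intro t _
      split_ifs
      · ring
      · simp
    have e2 : ∑ s ∈ C, m s * d s ^ 2 =
        ∑ s ∈ C, ∑ t ∈ C, (if r s t then m s * m t * d t else 0) := by
      rw [e1, Finset.sum_comm]
      apply Finset.sum_congr rfl
      intro s _
      apply Finset.sum_congr rfl
      intro t _
      by_cases h : r s t
      · rw [if_pos h, if_pos (hsymm _ _ h)]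
        ring
      · rw [if_neg h, if_neg (fun h' => h (hsymm _ _ h'))]
    rw [two_mul]
    nth_rewrite 2 [e2]
    rw [e1, ← Finset.sum_add_distrib]
    apply Finset.sum_congr rfl
    intro s _
    rw [← Finset.sum_add_distrib]
    apply Finset.sum_congr rfl
    intro t _
    split_ifs
    · ring
    · simp
  have h2 : 2 * ∑ s ∈ C, m s * d s ^ 2 ≤ M * S := by
    rw [h1, ← hS', Finset.mul_sum]
    apply Finset.sum_le_sum
    intro s hs
    rw [Finset.mul_sum]
    apply Finset.sum_le_sum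
    intro t ht
    split_ifs with h
    · have := hsum s hs t ht h
      have h3 : 0 ≤ m s * m t := mul_nonneg (hm s hs) (hm t ht)
      nlinarith
    · simp
  have h3 : S ^ 2 ≤ M * ∑ s ∈ C, m s * d s ^ 2 := by
    rw [hS, hM]
    apply Finset.sum_sq_le_sum_mul_sum_of_sq_eq_mul
    · exact hm
    · intro s hs
      exact mul_nonneg (hm s hs) (sq_nonneg _)
    · intro s _
      ring
  rw [hS', ← hM]
  rcases le_or_gt S 0 with h | h
  · have : 0 ≤ M ^ 2 / 2 := by positivity
    linarith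
  · have h4 : S * (2 * S) ≤ S * M ^ 2 := by nlinarith
    have h5 := le_of_mul_le_mul_left h4 h
    linarith

end Pool.Agent.N897.GK
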